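import Pool.Agent.Lib.MP_c8b0a1_an.Final

/-! Plane sections of a ternary quadric over a finite field. -/

namespace Pool.Agent.Lib.MP_c8b0a1_an

open Finset

variable {F : Type} [Field F] [Fintype F] [DecidableEq F]

lemma norm_eta_sum (hF : ringChar F ≠ 2) (ψ : AddChar F ℂ) (s : F) :
    ‖∑ t : F, eta F t * ψ (s * t)‖ ≤ ‖GG ψ‖ := by
  rcases eq_or_ne s 0 with rfl | hs
  · simp [MulChar.sum_eq_zero_of_ne_one (eta_ne_one hF)]
  · have := congrArg norm (gaussSum_mulShift (eta F) ψ (Units.mk0 s hs))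
    rw [Units.val_mk0, norm_mul, norm_eta hs, one_mul] at this
    exact this.le

lemma cnt_expand {ψ : AddChar F ℂ} (hψ : ψ ≠ 1) (a β : Fin 3 → F) (r b : F) :
    (#{c : Fin 3 → F | ∑ i, a i * c i ^ 2 = r ∧ ∑ i, β i * c i = b} : ℂ) *
      (Fintype.card F : ℂ) ^ 2 = ∑ τ : F, ∑ l : F, ψ (-(τ * r) + l * -b) *
        ∏ i, ∑ t, ψ (τ * a i * t ^ 2 + t * (l * β i)) := by
  simp_rw [← sum_pi_psi ψ (fun i t => _ * a i * t ^ 2 + t * (_ * β i)), mul_sum]
  rw [sum_congr rfl fun τ _ => sum_comm, sum_comm, card_filter, Nat.cast_sum, sum_mul]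
  refine sum_congr rfl fun c _ => ?_
  have : ∀ τ l : F, ψ (-(τ * r) + l * -b) * ψ (∑ i, (τ * a i * c i ^ 2 + c i * (l * β i))) =
      ψ (τ * (∑ i, a i * c i ^ 2 - r)) * ψ (l * (∑ i, β i * c i - b)) := fun τ l => by
    rw [← AddChar.map_add_eq_mul, ← AddChar.map_add_eq_mul]
    congr 1
    simp only [Fin.sum_univ_three]
    ring
  simp_rw [this]
  rw [← sum_mul_sum, sum_psi ψ hψ, sum_psi ψ hψ]
  simp only [sub_eq_zero]
  by_cases h1 : ∑ i, a i * c i ^ 2 = r <;> by_cases h2 : ∑ i, β i * c i = b <;> simp [h1, h2, sq]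

lemma cnt_near (hF : ringChar F ≠ 2) {ψ : AddChar F ℂ} (hψ : ψ ≠ 1) {a β : Fin 3 → F}
    (ha : ∀ i, a i ≠ 0) (hβ : β ≠ 0) (r b : F) :
    ‖(#{c : Fin 3 → F | ∑ i, a i * c i ^ 2 = r ∧ ∑ i, β i * c i = b} : ℂ) - Fintype.card F‖ ≤
      1 + if b ^ 2 = (∑ i, β i ^ 2 / a i) * r then (Fintype.card F : ℝ) else 0 := by
  have h4 := four_ne hF
  have q0 := card_pos' (F := F)
  have hG := norm_GG_sq hF ψ hψ
  obtain ⟨ρ, hρ⟩ : ∃ ρ, ρ = ∑ i, β i ^ 2 / a i := ⟨_, rfl⟩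
  obtain ⟨E, hE⟩ : ∃ E, E = eta F (a 0) * eta F (a 1) * eta F (a 2) * GG ψ ^ 3 := ⟨_, rfl⟩
  have nE : ‖E‖ = ‖GG ψ‖ ^ 3 := by
    rw [hE, norm_mul, norm_mul, norm_mul, norm_eta (ha 0), norm_eta (ha 1), norm_eta (ha 2),
      norm_pow]
    ring
  have e : ∀ τ : F, ∑ l : F, ψ (-(τ * r) + l * -b) *
      ∏ i, ∑ t, ψ (τ * a i * t ^ 2 + t * (l * β i)) =
      (if τ = 0 then (Fintype.card F : ℂ) ^ 3 else 0) +
        E * (eta F τ * ψ (-r * τ) * ∑ l, ψ (-(ρ / (4 * τ)) * l ^ 2 + l * -b)) := fun τ => by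
    by_cases hτ : τ = 0
    · subst hτ
      simp only [zero_mul, zero_add, sum_psi ψ hψ, eta_zero, mul_zero, add_zero, if_true, neg_zero]
      rw [sum_eq_single 0 (fun l _ hl => ?_) (by simp)]
      · simp
      · obtain ⟨i, hi⟩ := Function.ne_iff.1 hβ
        rw [prod_eq_zero (mem_univ i) (if_neg (mul_ne_zero hl hi)), mul_zero]
    rw [if_neg hτ, zero_add, mul_sum, mul_sum]
    refine sum_congr rfl fun l _ => ?_
    rw [prod_congr rfl fun i _ => complete_sq hF ψ hψ (mul_ne_zero hτ (ha i)) (l * β i),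
      prod_mul_distrib, ← psi_sum, ← mul_assoc, ← AddChar.map_add_eq_mul,
      show -(τ * r) + l * -b + ∑ i, -((l * β i) ^ 2 / (4 * (τ * a i))) =
        -r * τ + (-(ρ / (4 * τ)) * l ^ 2 + l * -b) by
          have := ha 0
          have := ha 1
          have := ha 2
          rw [hρ]
          simp only [Fin.sum_univ_three]
          field_simp
          ring, AddChar.map_add_eq_mul, Fin.prod_univ_three, hE]
    simp only [map_mul (eta F)]
    linear_combination (ψ (-r * τ) * ψ (-(ρ / (4 * τ)) * l ^ 2 + l * -b) * eta F (a 0) *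
      eta F (a 1) * eta F (a 2) * GG ψ ^ 3 * eta F τ) * eta_sq hτ
  have h1 := cnt_expand hψ a β r b
  rw [sum_congr rfl fun τ _ => e τ, sum_add_distrib, sum_ite_eq' univ, if_pos (mem_univ _),
    ← mul_sum] at h1
  rw [← hρ]
  refine le_of_mul_le_mul_right ?_ (pow_pos q0 2)
  rw [← Complex.norm_natCast, ← norm_pow, ← norm_mul, sub_mul, h1, ← pow_succ', add_sub_cancel_left,
    norm_mul, nE, norm_pow, Complex.norm_natCast]
  by_cases h0 : ρ = 0
  · simp only [h0, zero_div, neg_zero, zero_mul, zero_add, sum_psi ψ hψ, neg_eq_zero,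
      pow_eq_zero_iff two_ne_zero]
    rw [← sum_mul, norm_mul]
    split_ifs
    · have := mul_le_mul_of_nonneg_left (norm_eta_sum hF ψ (-r)) (pow_nonneg (norm_nonneg (GG ψ)) 3)
      rw [← pow_succ, show 3 + 1 = 2 * 2 from rfl, pow_mul, hG] at this
      rw [Complex.norm_natCast]
      nlinarith [mul_le_mul_of_nonneg_right this q0.le]
    · simp
  · have e2 : ∀ τ : F, eta F τ * ψ (-r * τ) * ∑ l, ψ (-(ρ / (4 * τ)) * l ^ 2 + l * -b) =
        eta F (-(ρ / 4)) * GG ψ * (ψ (τ * (b ^ 2 / ρ - r)) - if τ = 0 then 1 else 0) := fun τ => by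
      by_cases hτ : τ = 0
      · simp [hτ]
      rw [complete_sq hF ψ hψ (neg_ne_zero.2 (div_ne_zero h0 (mul_ne_zero h4 hτ))), if_neg hτ,
        show -(ρ / 4) = τ * -(ρ / (4 * τ)) by field_simp, map_mul (eta F),
        show τ * (b ^ 2 / ρ - r) = -r * τ + -((-b) ^ 2 / (4 * -(ρ / (4 * τ)))) by field_simp; ring,
        AddChar.map_add_eq_mul]
      ring
    rw [sum_congr rfl fun τ _ => e2 τ, ← mul_sum, sum_sub_distrib, sum_psi ψ hψ, sum_ite_eq' univ,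
      if_pos (mem_univ _), norm_mul, norm_mul, norm_eta (neg_ne_zero.2 (div_ne_zero h0 h4)),
      one_mul, ← mul_assoc, ← pow_succ, show 3 + 1 = 2 * 2 from rfl, pow_mul, hG, mul_comm]
    refine mul_le_mul_of_nonneg_right ((norm_sub_le _ _).trans ?_) (by positivity)
    have : b ^ 2 / ρ - r = 0 ↔ b ^ 2 = ρ * r := by rw [sub_eq_zero, div_eq_iff h0, mul_comm]
    simp only [this]
    split_ifs <;> simp [add_comm]

lemma cnt_sum (hF : ringChar F ≠ 2) {ψ : AddChar F ℂ} (hψ : ψ ≠ 1) {a β : Fin 3 → F}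
    (ha : ∀ i, a i ≠ 0) (hβ : β ≠ 0) (r : F) :
    ∑ b, ‖(#{c : Fin 3 → F | ∑ i, a i * c i ^ 2 = r ∧ ∑ i, β i * c i = b} : ℂ) - Fintype.card F‖ ≤
      3 * Fintype.card F := by
  refine (sum_le_sum fun b _ => cnt_near hF hψ ha hβ r b).trans ?_
  rw [sum_add_distrib, ← sum_filter, sum_const, sum_const, nsmul_eq_mul, nsmul_eq_mul, card_univ]
  have h : (#{b : F | b ^ 2 = (∑ i, β i ^ 2 / a i) * r} : ℝ) ≤ 2 := by
    exact_mod_cast card_sqrt_le (F := F) _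
  nlinarith [card_pos' (F := F)]

lemma sum_level (a β : Fin 3 → F) (r : F) (G : F → ℂ) :
    ∑ c : Fin 3 → F with ∑ i, a i * c i ^ 2 = r, G (∑ i, β i * c i) =
      ∑ b, G b * (#{c : Fin 3 → F | ∑ i, a i * c i ^ 2 = r ∧ ∑ i, β i * c i = b} : ℂ) := by
  rw [← sum_fiberwise _ fun c : Fin 3 → F => ∑ i, β i * c i]
  refine sum_congr rfl fun b _ => ?_
  rw [sum_congr rfl (g := fun _ => G b) fun c hc => by rw [(mem_filter.1 hc).2], sum_const,
    nsmul_eq_mul, filter_filter, mul_comm]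

theorem level_avg (hF : ringChar F ≠ 2) {ψ : AddChar F ℂ} (hψ : ψ ≠ 1) {a β : Fin 3 → F}
    (ha : ∀ i, a i ≠ 0) (hβ : β ≠ 0) (r : F) {G : F → ℂ} (h0 : ∑ b, G b = 0) (h2 : ∀ b, ‖G b‖ ≤ 2)
    (hne : ∃ c : Fin 3 → F, ∑ i, a i * c i ^ 2 = r ∧ c ≠ 0) :
    ‖∑ c : Fin 3 → F with ∑ i, a i * c i ^ 2 = r ∧ c ≠ 0, G (∑ i, β i * c i)‖ ≤
      343 / Fintype.card F * #{c : Fin 3 → F | ∑ i, a i * c i ^ 2 = r ∧ c ≠ 0} := by
  have q2 := two_le_card (F := F)
  have h3 := cnt_sum hF hψ ha hβ r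
  have cut : ∀ H : (Fin 3 → F) → ℂ, ∀ K : ℝ, 0 ≤ K → ‖H 0‖ ≤ K →
      ‖∑ c with ∑ i, a i * c i ^ 2 = r ∧ c ≠ 0, H c - ∑ c with ∑ i, a i * c i ^ 2 = r, H c‖ ≤ K := by
    intro H K k0 hK
    rw [← filter_filter, filter_ne', norm_sub_rev]
    by_cases h : (0 : Fin 3 → F) ∈ univ.filter fun c => ∑ i, a i * c i ^ 2 = r
    · rwa [← add_sum_erase _ _ h, add_sub_cancel_right]
    · rwa [erase_eq_of_notMem h, sub_self, norm_zero]
  have u1 : ‖∑ c : Fin 3 → F with ∑ i, a i * c i ^ 2 = r, G (∑ i, β i * c i)‖ ≤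
      2 * (3 * Fintype.card F) := by
    rw [sum_level, ← sub_zero (∑ b, G b * _), ← zero_mul (Fintype.card F : ℂ), ← h0, sum_mul,
      ← sum_sub_distrib]
    refine (norm_sum_le _ _).trans (le_trans ?_ (mul_le_mul_of_nonneg_left h3 zero_le_two))
    rw [mul_sum]
    exact sum_le_sum fun b _ => by
      rw [← mul_sub, norm_mul]
      exact mul_le_mul_of_nonneg_right (h2 b) (norm_nonneg _)
  have u2 := (norm_le_insert' _ _).trans (add_le_add u1 (cut (fun c => G (∑ i, β i * c i)) 2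
    zero_le_two (h2 _)))
  have u3 : ‖∑ c : Fin 3 → F with ∑ i, a i * c i ^ 2 = r, (1 : ℂ) -
      (Fintype.card F : ℂ) * Fintype.card F‖ ≤ 3 * Fintype.card F := by
    rw [sum_level a β r fun _ => 1, ← nsmul_eq_mul, ← card_univ, ← sum_const, card_univ,
      ← sum_sub_distrib]
    simpa using (norm_sum_le _ _).trans h3
  have u4 := (norm_sub_le_norm_sub_add_norm_sub _ _ _).trans (add_le_add
    (cut (fun _ => 1) 1 zero_le_one (by simp)) u3)
  rw [sum_const, nsmul_one, ← Nat.cast_mul, ← Complex.ofReal_natCast, ← Complex.ofReal_natCast,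
    ← Complex.ofReal_sub, Complex.norm_real, Real.norm_eq_abs, Nat.cast_mul] at u4
  have u5 : (1 : ℝ) ≤ #{c : Fin 3 → F | ∑ i, a i * c i ^ 2 = r ∧ c ≠ 0} := by
    obtain ⟨c, hc⟩ := hne
    exact_mod_cast card_pos.2 ⟨c, mem_filter.2 ⟨mem_univ _, hc⟩⟩
  have u6 := (abs_le.1 u4).1
  generalize (#{c : Fin 3 → F | ∑ i, a i * c i ^ 2 = r ∧ c ≠ 0} : ℝ) = n at *
  generalize (Fintype.card F : ℝ) = q at *
  refine u2.trans ?_
  rw [div_mul_eq_mul_div, le_div_iff₀ (by linarith)]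
  rcases le_total q 7 with h | h <;> nlinarith

end Pool.Agent.Lib.MP_c8b0a1_an
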