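import Mathlib

/-! Interpolation of a form on a class of functions by the three lines lemma; averaging. -/

namespace Pool.Agent.Lib.MP_c8b0a1_an

open Finset Complex

lemma norm_mul_exp (a c : ℂ) (hc : 0 < 1 + c.re) :
    ‖a * exp (c * (Real.log ‖a‖ : ℝ))‖ = ‖a‖ ^ (1 + c.re) := by
  rcases eq_or_ne a 0 with rfl | ha
  · simp [Real.zero_rpow hc.ne']
  · have h := norm_pos_iff.2 ha
    rw [norm_mul, norm_exp, re_mul_ofReal, Real.rpow_add h, Real.rpow_one, Real.rpow_def_of_pos h,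
      mul_comm c.re]

theorem interp {X : Type} [Fintype X] (K : X → X → ℂ) (P : (X → ℂ) → Prop)
    (hP : ∀ (f : X → ℂ) (h : ℂ → ℂ), h 0 = 0 → P f → P fun x => h (f x)) {M₁ M₂ θ p : ℝ}
    (hM : 0 ≤ M₁)
    (h1 : ∀ f g, P f → P g → (∀ x, ‖g x‖ = ‖f x‖) →
      ‖∑ y, g y * ∑ x, f x * K x y‖ ≤ M₁ * (∑ x, ‖f x‖) ^ 2)
    (h2 : ∀ f g, P f → P g → (∀ x, ‖g x‖ = ‖f x‖) →
      ‖∑ y, g y * ∑ x, f x * K x y‖ ≤ M₂ * ∑ x, ‖f x‖ ^ 2) (hM2 : 0 ≤ M₂)
    (h0 : 0 ≤ θ) (hθ : θ ≤ 1) (hp : p * (2 - θ) = 2) {f : X → ℂ} (hf : P f)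
    (hn : ∑ x, ‖f x‖ ^ p ≤ 1) :
    ‖∑ y, (starRingEnd ℂ) (f y) * ∑ x, f x * K x y‖ ≤ M₁ ^ (1 - θ) * M₂ ^ θ := by
  have p0 : 0 < p := by
    by_contra h
    nlinarith [not_lt.1 h]
  obtain ⟨c, hc⟩ : ∃ c : ℂ → ℂ, ∀ z, c z = p * (1 - z / 2) - 1 := ⟨_, fun _ => rfl⟩
  have c1 : ∀ z, 1 + (c z).re = p * (1 - z.re / 2) := fun z => by
    rw [hc]
    simp
  have c2 : ∀ z : ℂ, z.re ≤ 1 → 0 < 1 + (c z).re := fun z hz => by
    rw [c1]
    exact mul_pos p0 (by linarith)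
  have c3 : c θ = 0 := by
    have : (p : ℂ) * (2 - θ) = 2 := by exact_mod_cast hp
    rw [hc]
    linear_combination this / 2
  let u : ℂ → X → ℂ := fun z x => f x * exp (c z * (Real.log ‖f x‖ : ℝ))
  let v : ℂ → X → ℂ := fun z x => (starRingEnd ℂ) (f x) * exp (c z * (Real.log ‖f x‖ : ℝ))
  have pu : ∀ z, P (u z) := fun z =>
    hP f (fun a => a * exp (c z * (Real.log ‖a‖ : ℝ))) (zero_mul _) hf
  have pv : ∀ z, P (v z) := fun z =>
    hP f (fun a => (starRingEnd ℂ) a * exp (c z * (Real.log ‖a‖ : ℝ))) (by simp) hf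
  have uv : ∀ z x, ‖v z x‖ = ‖u z x‖ := fun z x => by simp only [u, v, norm_mul, RCLike.norm_conj]
  have nu : ∀ z : ℂ, z.re ≤ 1 → ∀ x, ‖u z x‖ = ‖f x‖ ^ (p * (1 - z.re / 2)) := fun z hz x => by
    rw [← c1]
    exact norm_mul_exp _ _ (c2 z hz)
  have f1 : ∀ x, ‖f x‖ ≤ 1 := fun x => by
    by_contra h
    have := Real.one_lt_rpow (not_le.1 h) p0
    have := single_le_sum (f := fun x => ‖f x‖ ^ p) (fun _ _ => by positivity) (mem_univ x)
    linarith
  have key := HadamardThreeLines.norm_le_interp_of_mem_verticalClosedStrip₀₁'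
    (fun z => ∑ y, v z y * ∑ x, u z x * K x y) (z := θ) (a := M₁) (b := M₂)
    ⟨by simpa using h0, by simpa using hθ⟩ (Differentiable.diffContOnCl (by
      have : Differentiable ℂ c := by
        rw [show c = fun z : ℂ => (p : ℂ) * (1 - z / 2) - 1 from funext hc]
        fun_prop
      simp only [u, v]
      fun_prop))
    ⟨M₁ * (Fintype.card X : ℝ) ^ 2, by
      rintro _ ⟨z, hz, rfl⟩
      refine (h1 _ _ (pu z) (pv z) (uv z)).trans ?_
      have : ∑ x, ‖u z x‖ ≤ Fintype.card X := by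
        refine (sum_le_card_nsmul _ _ 1 fun x _ => ?_).trans (by simp)
        rw [nu z hz.2]
        exact Real.rpow_le_one (norm_nonneg _) (f1 x) (c1 z ▸ (c2 z hz.2).le)
      gcongr⟩
    (fun z hz => by
      have e : z.re = 0 := hz
      refine (h1 _ _ (pu z) (pv z) (uv z)).trans (mul_le_of_le_one_right hM ?_)
      simp only [nu z (e ▸ zero_le_one), e, zero_div, sub_zero, mul_one]
      exact pow_le_one₀ (by positivity) hn)
    fun z hz => by
      have e : z.re = 1 := hz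
      refine (h2 _ _ (pu z) (pv z) (uv z)).trans (mul_le_of_le_one_right hM2
        (le_of_eq_of_le (sum_congr rfl fun x _ => ?_) hn))
      rw [nu z e.le, e, ← Real.rpow_natCast, ← Real.rpow_mul (norm_nonneg _)]
      congr 1
      push_cast
      ring
  simpa [u, v, c3] using key

theorem avg_class {X : Type} [Fintype X] (R : X → X → Prop) [DecidableRel R]
    (hs : ∀ x y, R x y → R y x) (ht : ∀ x y z, R x y → R y z → R x z) (g H : X → ℂ) {m : ℝ}
    (h0 : ∀ y, g y ≠ 0 → R y y) (hg : ∀ x y, R x y → g y = g x)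
    (hH : ∀ y, R y y → ‖∑ z with R y z, H z‖ ≤ m * #{z | R y z}) :
    ‖∑ y, g y * H y‖ ≤ m * ∑ y, ‖g y‖ := by
  have n0 : ∀ y, R y y → (0 : ℝ) < #{z | R y z} := fun y h => by
    exact_mod_cast card_pos.2 ⟨y, mem_filter.2 ⟨mem_univ _, h⟩⟩
  have e : ∑ y, g y * H y = ∑ y, g y / (#{z | R y z} : ℝ) * ∑ z with R y z, H z := by
    simp only [mul_sum, sum_filter]
    rw [sum_comm]
    refine sum_congr rfl fun z _ => ?_
    by_cases hz : g z = 0
    · rw [hz, zero_mul]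
      refine (sum_eq_zero fun y _ => ?_).symm
      split_ifs with h
      · rw [← hg y z h, hz, zero_div, zero_mul]
      · exact mul_zero _
    rw [sum_congr rfl (g := fun y => if R z y then g z / (#{w | R z w} : ℝ) * H z else 0)
      fun y _ => by
        by_cases h : R y z
        · rw [if_pos h, if_pos (hs _ _ h), hg y z h, filter_congr (q := fun w => R y w)
            fun w _ => ⟨ht _ _ _ h, ht _ _ _ (hs _ _ h)⟩]
        · rw [if_neg h, if_neg fun a => h (hs _ _ a), mul_zero], ← sum_filter, sum_const,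
      nsmul_eq_mul]
    have : ((#{w | R z w} : ℝ) : ℂ) ≠ 0 := by exact_mod_cast (n0 z (h0 z hz)).ne'
    push_cast at this ⊢
    field_simp
  rw [e, mul_sum]
  refine (norm_sum_le _ _).trans (sum_le_sum fun y _ => ?_)
  by_cases hy : g y = 0
  · simp [hy]
  have h1 := n0 y (h0 y hy)
  rw [norm_mul, norm_div, norm_real, Real.norm_of_nonneg h1.le, div_mul_eq_mul_div,
    div_le_iff₀ h1]
  nlinarith [mul_le_mul_of_nonneg_left (hH y (h0 y hy)) (norm_nonneg (g y))]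

end Pool.Agent.Lib.MP_c8b0a1_an
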