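import Pool.Agent.Lib.MP_c8b0a1_an.Sym.Interp
import Pool.Agent.Lib.MP_c8b0a1_an.Sym.Count

/-! Restriction at the endpoint for functions with a three-dimensional orthogonal symmetry. -/

namespace Pool.Agent.Lib.MP_c8b0a1_an

open Finset

variable {F : Type} [Field F] [Fintype F] [DecidableEq F]
variable {V : Type} [AddCommGroup V] [Module F V] [Fintype V] [DecidableEq V]

/-- `x` and `y` differ by a vector in the span of `w`, have the same length and are not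
orthogonal to the span. -/
def Rl (B : V →ₗ[F] V →ₗ[F] F) (w : Fin 3 → V) (x y : V) : Prop :=
  (∃ c : Fin 3 → F, y = x + ∑ a, c a • w a) ∧ B y y = B x x ∧ (∃ a, B (w a) x ≠ 0) ∧
    ∃ a, B (w a) y ≠ 0

variable {ψ : AddChar F ℂ} {j : F} {B : V →ₗ[F] V →ₗ[F] F} {k : ℕ} {w : Fin 3 → V}

omit [Fintype F] [DecidableEq F] [Fintype V] [DecidableEq V] in
lemma Rl.symm {x y : V} (h : Rl B w x y) : Rl B w y x := by
  obtain ⟨⟨c, hc⟩, h1, h2, h3⟩ := h
  exact ⟨⟨-c, by simp [hc]⟩, h1.symm, h3, h2⟩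

omit [Fintype F] [DecidableEq F] [Fintype V] [DecidableEq V] in
lemma Rl.trans {x y z : V} (h : Rl B w x y) (h' : Rl B w y z) : Rl B w x z := by
  obtain ⟨⟨c, hc⟩, h1, h2, -⟩ := h
  obtain ⟨⟨c', hc'⟩, h1', -, h3⟩ := h'
  exact ⟨⟨c + c', by simp [hc', hc, add_smul, sum_add_distrib, add_assoc]⟩, h1'.trans h1, h2, h3⟩

lemma kern_avg [DecidableRel (Rl B w)] (hF : ringChar F ≠ 2) (hψ : ψ ≠ 1) (hj : j ≠ 0) (hs : ∀ x y, B x y = B y x)
    (hw : ∀ a b, a ≠ b → B (w a) (w b) = 0) (ha : ∀ a, B (w a) (w a) ≠ 0) {x y : V}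
    (hx : ∃ a, B (w a) x ≠ 0) (hy : ∃ a, B (w a) y ≠ 0) :
    ‖∑ z with Rl B w y z, phi ψ j (B (x - z) (x - z))‖ ≤
      343 / Fintype.card F * #{z | Rl B w y z} := by
  have b1 : ∀ (c : Fin 3 → F) b, B (w b) (∑ a, c a • w a) = B (w b) (w b) * c b := fun c b => by
    rw [map_sum, sum_eq_single b (fun a _ h => by rw [map_smul, hw b a h.symm, smul_zero])
      (by simp), map_smul, smul_eq_mul, mul_comm]
  obtain ⟨c0, hc0⟩ : ∃ c0 : Fin 3 → F, ∀ a, B (w a) (w a) * c0 a = B (w a) y :=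
    ⟨fun a => B (w a) y / B (w a) (w a), fun a => mul_div_cancel₀ _ (ha a)⟩
  obtain ⟨y0, rfl⟩ : ∃ y0, y = y0 + ∑ a, c0 a • w a := ⟨y - ∑ a, c0 a • w a, by simp⟩
  have b2 : ∀ b, B (w b) y0 = 0 := fun b => by
    have := hc0 b
    rw [map_add, b1] at this
    linear_combination -this
  have b3 : ∀ (c : Fin 3 → F) b, B (w b) (y0 + ∑ a, c a • w a) = B (w b) (w b) * c b :=
    fun c b => by rw [map_add, b1, b2, zero_add]
  have b4 : ∀ (c : Fin 3 → F) z, B (y0 + ∑ a, c a • w a) z = B y0 z + ∑ a, B (w a) z * c a :=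
    fun c z => by simp [mul_comm]
  have b5 : ∀ c : Fin 3 → F, B (y0 + ∑ a, c a • w a) (y0 + ∑ a, c a • w a) =
      B y0 y0 + ∑ a, B (w a) (w a) * c a ^ 2 := fun c => by
    rw [b4, hs y0, b4]
    simp [b2, b3, sq, mul_assoc]
  have b6 : ∀ c : Fin 3 → F, (∃ b, B (w b) (y0 + ∑ a, c a • w a) ≠ 0) ↔ c ≠ 0 := fun c => by
    simp [b3, ha, Function.ne_iff]
  have hi : Function.Injective fun c : Fin 3 → F => y0 + ∑ a, c a • w a := fun c c' h =>
    funext fun b => mul_left_cancel₀ (ha b) (by rw [← b3, ← b3]; exact congrArg _ h)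
  have e : (univ.filter fun z => Rl B w (y0 + ∑ a, c0 a • w a) z) = (univ.filter
      fun c : Fin 3 → F => ∑ i, B (w i) (w i) * c i ^ 2 = ∑ i, B (w i) (w i) * c0 i ^ 2 ∧
        c ≠ 0).image fun c => y0 + ∑ a, c a • w a := by
    ext z
    simp only [mem_filter, mem_univ, true_and, mem_image]
    constructor
    · rintro ⟨⟨c, hc⟩, h1, -, h3⟩
      have hz : z = y0 + ∑ a, (c0 + c) a • w a := by
        simp [hc, add_smul, sum_add_distrib, add_assoc]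
      rw [hz] at h1 h3
      rw [b5, b5] at h1
      exact ⟨c0 + c, ⟨add_left_cancel h1, (b6 _).1 h3⟩, hz.symm⟩
    · rintro ⟨c, ⟨h1, h2⟩, rfl⟩
      exact ⟨⟨c - c0, by simp [sub_smul, sum_sub_distrib]⟩, by rw [b5, b5, h1], hy, (b6 _).2 h2⟩
  rw [e, sum_image fun _ _ _ _ h => hi h, card_image_of_injective _ hi]
  obtain ⟨G, hG⟩ : ∃ G : F → ℂ, ∀ b, G b = phi ψ j (B x x + (B y0 y0 +
      ∑ i, B (w i) (w i) * c0 i ^ 2) - 2 * B y0 x + b * -2) := ⟨_, fun _ => rfl⟩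
  have key := level_avg hF hψ (a := fun a => B (w a) (w a)) ha
    (β := fun a => B (w a) x) (Function.ne_iff.2 hx) (∑ i, B (w i) (w i) * c0 i ^ 2) (G := G)
    (by simp only [hG]; exact sum_phi_affine ψ hψ hj _ (neg_ne_zero.2 (two_ne hF)))
    (fun b => by rw [hG]; exact norm_phi_le _ _ _) ⟨c0, rfl, (b6 _).1 hy⟩
  refine le_of_eq_of_le (congrArg norm (sum_congr rfl fun c hc => ?_)) key
  rw [hG, ← (mem_filter.1 hc).2.1, ← b5]
  congr 1
  simp only [map_sub, LinearMap.sub_apply]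
  rw [hs x (y0 + _), b4 c x]
  ring

lemma form_two (hG : Good ψ j B k) (f g : V → ℂ) (h : ∀ x, ‖g x‖ = ‖f x‖) :
    ‖∑ y, g y * ∑ x, f x * ((Fintype.card F : ℂ) ^ k * phi ψ j (B (x - y) (x - y)))‖ ≤
      2 * (Fintype.card F : ℝ) ^ (2 * k + 1) * ∑ x, ‖f x‖ ^ 2 := by
  have e : ∑ y, g y * ∑ x, f x * ((Fintype.card F : ℂ) ^ k * phi ψ j (B (x - y) (x - y))) =
      (Fintype.card F : ℂ) ^ (2 * k) * ∑ y, g y * f y - ∑ ξ with B ξ ξ = j, ft ψ B f ξ *
        (starRingEnd ℂ) (ft ψ B (fun y => (starRingEnd ℂ) (g y)) ξ) := by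
    have e1 : ∀ x y, (Fintype.card F : ℂ) ^ k * phi ψ j (B (x - y) (x - y)) =
        (if x = y then (Fintype.card F : ℂ) ^ (2 * k) else 0) -
          ∑ ξ with B ξ ξ = j, ψ (B ξ (x - y)) := fun x y => by
      rw [hG.kf]
      simp [sub_eq_zero]
    simp only [e1, mul_sub, sum_sub_distrib, mul_ite, mul_zero, sum_ite_eq', mem_univ, if_true]
    congr 1
    · rw [mul_sum]
      exact sum_congr rfl fun y _ => by ring
    · simp only [ft, map_sum, mul_sum, sum_mul]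
      rw [sum_comm (s := filter _ _)]
      refine sum_congr rfl fun y _ => ?_
      rw [sum_comm]
      refine sum_congr rfl fun ξ _ => sum_congr rfl fun x _ => ?_
      rw [map_sub, ← psi_mul_conj, map_mul, Complex.conj_conj]
      ring
  have q1 : (1 : ℝ) ≤ Fintype.card F := one_le_two.trans two_le_card
  have h1 := mass_triv hG f
  have h2 := mass_triv hG fun y => (starRingEnd ℂ) (g y)
  simp only [RCLike.norm_conj, h] at h2
  have h3 : ‖∑ y, g y * f y‖ ≤ ∑ x, ‖f x‖ ^ 2 :=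
    (norm_sum_le _ _).trans (sum_le_sum fun y _ => by rw [norm_mul, h, sq])
  have h4 : ‖∑ ξ with B ξ ξ = j, ft ψ B f ξ *
      (starRingEnd ℂ) (ft ψ B (fun y => (starRingEnd ℂ) (g y)) ξ)‖ ≤
      (mass ψ j B f + mass ψ j B fun y => (starRingEnd ℂ) (g y)) / 2 := by
    rw [mass, mass, ← sum_add_distrib, sum_div]
    refine (norm_sum_le _ _).trans (sum_le_sum fun ξ _ => ?_)
    rw [norm_mul, RCLike.norm_conj]
    nlinarith [sq_nonneg (‖ft ψ B f ξ‖ - ‖ft ψ B (fun y => (starRingEnd ℂ) (g y)) ξ‖)]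
  rw [e]
  refine (norm_sub_le _ _).trans ?_
  rw [norm_mul, norm_pow, Complex.norm_natCast]
  have h5 : (Fintype.card F : ℝ) ^ (2 * k) * ‖∑ y, g y * f y‖ ≤
      (Fintype.card F : ℝ) ^ (2 * k + 1) * ∑ x, ‖f x‖ ^ 2 :=
    mul_le_mul (pow_le_pow_right₀ q1 (Nat.le_succ _)) h3 (norm_nonneg _) (by positivity)
  linarith

theorem sym_one (hF : ringChar F ≠ 2) (hψ : ψ ≠ 1) (hj : j ≠ 0) (hG : Good ψ j B k)
    (hw : ∀ a b, a ≠ b → B (w a) (w b) = 0) (ha : ∀ a, B (w a) (w a) ≠ 0) {p : ℝ} (hp : 1 ≤ p)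
    (hp2 : p * (k + 3) ≤ 2 * (k + 2)) {f : V → ℂ} (hf : ∀ x y, Rl B w x y → f y = f x)
    (hn : ∑ x, ‖f x‖ ^ p ≤ 1) : mass ψ j B f ≤ 692 * (Fintype.card F : ℝ) ^ (2 * k) := by
  classical
  have q0 := card_pos' (F := F)
  have q1 : (1 : ℝ) ≤ Fintype.card F := one_le_two.trans two_le_card
  have k0 : (0 : ℝ) ≤ k := k.cast_nonneg
  have p0 : 0 < p := by linarith
  have p2 : p ≤ 2 := by nlinarith
  have sq1 : ∀ g : V → ℂ, (∀ x, g x = f x ∨ g x = 0) → ∑ x, ‖g x‖ ^ p ≤ 1 ∧ ∑ x, ‖g x‖ ^ 2 ≤ 1 := by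
    intro g hg
    have h1 : ∑ x, ‖g x‖ ^ p ≤ 1 := (sum_le_sum fun x _ => by
      rcases hg x with e | e <;> rw [e]
      rw [norm_zero, Real.zero_rpow p0.ne']
      positivity).trans hn
    refine ⟨h1, (sum_le_sum fun x _ => ?_).trans h1⟩
    have h2 : ‖g x‖ ≤ 1 := by
      by_contra h
      have := Real.one_lt_rpow (not_le.1 h) p0
      have := single_le_sum (f := fun x => ‖g x‖ ^ p) (fun _ _ => by positivity) (mem_univ x)
      linarith
    rw [← Real.rpow_two]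
    exact Real.rpow_le_rpow_of_exponent_ge' (norm_nonneg _) h2 p0.le p2
  obtain ⟨f1, e1⟩ : ∃ f1 : V → ℂ, ∀ x, f1 x = if ∃ a, B (w a) x ≠ 0 then f x else 0 :=
    ⟨_, fun _ => rfl⟩
  obtain ⟨f0, e0⟩ : ∃ f0 : V → ℂ, ∀ x, f0 x = if ∃ a, B (w a) x ≠ 0 then 0 else f x :=
    ⟨_, fun _ => rfl⟩
  have s1 := sq1 f1 fun x => by rw [e1]; split_ifs <;> simp
  have s0 := sq1 f0 fun x => by rw [e0]; split_ifs <;> simp
  have m0 := off_bound hF hG (w 0) 0 f0 fun x hx => by rw [e0, if_pos ⟨0, hx⟩]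
  simp only [ha 0, false_and, if_false] at m0
  have m1 := mass_le hG f1
  have key := interp (fun x y => (Fintype.card F : ℂ) ^ k * phi ψ j (B (x - y) (x - y)))
    (fun g => (∀ x y, Rl B w x y → g y = g x) ∧ ∀ x, g x ≠ 0 → ∃ a, B (w a) x ≠ 0)
    (fun g h h0 hg => ⟨fun x y r => congrArg h (hg.1 x y r),
      fun x r => hg.2 x fun e => r ((congrArg h e).trans h0)⟩)
    (M₁ := 343 * (Fintype.card F : ℝ) ^ ((k : ℝ) - 1))
    (M₂ := 343 * (Fintype.card F : ℝ) ^ (2 * (k : ℝ) + 1)) (θ := 2 - 2 / p) (p := p)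
    (by positivity) (fun g g' hg hg' e => by
      refine (avg_class (Rl B w) (fun _ _ => Rl.symm) (fun _ _ _ => Rl.trans) g' _
        (m := 343 * (Fintype.card F : ℝ) ^ ((k : ℝ) - 1) * ∑ x, ‖g x‖)
        (fun y r => ⟨⟨0, by simp⟩, rfl, hg'.2 y r, hg'.2 y r⟩) hg'.1 fun y r => ?_).trans
        (le_of_eq (by simp only [e]; ring))
      rw [sum_comm, mul_sum, sum_mul]
      refine (norm_sum_le _ _).trans (sum_le_sum fun x _ => ?_)
      by_cases hx : g x = 0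
      · simp [hx]
      rw [← mul_sum, ← mul_sum, norm_mul, norm_mul, norm_pow, Complex.norm_natCast,
        Real.rpow_sub_one q0.ne', Real.rpow_natCast]
      refine le_of_le_of_eq (mul_le_mul_of_nonneg_left (mul_le_mul_of_nonneg_left
        (kern_avg hF hψ hj hG.symm hw ha (hg.2 x hx) r.2.2.1) (by positivity)) (norm_nonneg _)) ?_
      ring)
    (fun g g' _ _ e => (form_two hG g g' e).trans (by
      rw [show 2 * (k : ℝ) + 1 = ((2 * k + 1 : ℕ) : ℝ) by push_cast; ring, Real.rpow_natCast]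
      gcongr
      norm_num)) (by positivity)
    (by rw [sub_nonneg, div_le_iff₀ p0]; linarith)
    (by rw [sub_le_comm, le_div_iff₀ p0]; linarith) (by field_simp; ring) (f := f1)
    ⟨fun x y r => by rw [e1, e1, if_pos r.2.2.1, if_pos r.2.2.2, hf x y r],
      fun x r => not_not.1 fun h => r (by rw [e1, if_neg h])⟩ s1.1
  have hθ : (2 - 2 / p) * (k + 2) ≤ k + 1 := by
    have : (k : ℝ) + 3 ≤ 2 / p * (k + 2) := by
      rw [div_mul_eq_mul_div, le_div_iff₀ p0]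
      linarith
    linarith
  generalize 2 - 2 / p = θ at key hθ
  rw [Real.mul_rpow (by norm_num) (by positivity), Real.mul_rpow (by norm_num) (by positivity),
    mul_mul_mul_comm, ← Real.rpow_add (by norm_num), sub_add_cancel, Real.rpow_one,
    ← Real.rpow_mul q0.le, ← Real.rpow_mul q0.le, ← Real.rpow_add q0] at key
  have key2 := key.trans (mul_le_mul_of_nonneg_left (Real.rpow_le_rpow_of_exponent_le q1
    (show _ ≤ ((2 * k : ℕ) : ℝ) by push_cast; nlinarith)) (by norm_num))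
  simp only [mul_left_comm _ ((Fintype.card F : ℂ) ^ k), ← mul_sum] at key2
  rw [Real.rpow_natCast, norm_mul, norm_pow, Complex.norm_natCast] at key2
  have m2 : mass ψ j B f ≤ 2 * mass ψ j B f0 + 2 * mass ψ j B f1 := by
    rw [mass, mass, mass, mul_sum, mul_sum, ← sum_add_distrib]
    refine sum_le_sum fun ξ _ => ?_
    have : ft ψ B f ξ = ft ψ B f0 ξ + ft ψ B f1 ξ := by
      rw [ft, ft, ft, ← sum_add_distrib]
      refine sum_congr rfl fun x _ => ?_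
      rw [e0, e1]
      split_ifs <;> simp
    rw [this]
    nlinarith [pow_le_pow_left₀ (norm_nonneg _) (norm_add_le (ft ψ B f0 ξ) (ft ψ B f1 ξ)) 2,
      sq_nonneg (‖ft ψ B f0 ξ‖ - ‖ft ψ B f1 ξ‖)]
  have q2 : (0 : ℝ) ≤ (Fintype.card F : ℝ) ^ (2 * k) := by positivity
  have t0 := mul_le_of_le_one_right q2 s0.2
  have t1 := mul_le_of_le_one_right q2 s1.2
  change mass ψ j B f0 ≤ _ at m0
  linarith

omit [DecidableEq V] in
lemma strong' {p D : ℝ} (hp : 0 < p) (f : V → ℂ)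
    (h : ∀ A : ℝ, ∑ x, ‖(A : ℂ) * f x‖ ^ p ≤ 1 → mass ψ j B (fun x => A * f x) ≤ D) :
    mass ψ j B f ≤ D * ((∑ x, ‖f x‖ ^ p) ^ (1 / p)) ^ 2 := by
  have h0 : 0 ≤ ∑ x, ‖f x‖ ^ p := sum_nonneg fun _ _ => by positivity
  rcases h0.eq_or_lt with hz | hz
  · have : ∀ x, f x = 0 := by
      intro x
      have := (sum_eq_zero_iff_of_nonneg (fun _ _ => by positivity)).1 hz.symm x (mem_univ _)
      rwa [Real.rpow_eq_zero (norm_nonneg _) hp.ne', norm_eq_zero] at this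
    rw [← hz, Real.zero_rpow (by positivity)]
    simp [mass, ft, this]
  set A := (∑ x, ‖f x‖ ^ p) ^ (1 / p) with hA
  have hA0 : 0 < A := Real.rpow_pos_of_pos hz _
  have hAp : A ^ p = ∑ x, ‖f x‖ ^ p := by
    rw [hA, ← Real.rpow_mul hz.le, one_div_mul_cancel hp.ne', Real.rpow_one]
  have h1 := h A⁻¹ (le_of_eq (by
    simp only [norm_mul, Complex.norm_real, Real.norm_of_nonneg (inv_pos.2 hA0).le]
    simp_rw [Real.mul_rpow (inv_pos.2 hA0).le (norm_nonneg _)]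
    rw [← mul_sum, Real.inv_rpow hA0.le, hAp, inv_mul_cancel₀ hz.ne']))
  classical
  rw [mass_smul, inv_pow, inv_mul_le_iff₀ (by positivity)] at h1
  rwa [mul_comm]

theorem sym_main (d : ℕ) (hd : 3 ≤ d) (p : ℝ) (hp : 1 ≤ p) (hp2 : p ≤ (2 * d + 6 : ℝ) / (d + 5))
    (hF : ringChar F ≠ 2) (hψ : ψ ≠ 1) (hj : j ≠ 0)
    (hadm : (d % 4 = 1 ∧ quadraticChar F j = -1) ∨ (d % 4 = 3 ∧ quadraticChar F (-j) = -1))
    (w : Fin 3 → Fin d → F) (hw : ∀ a b, a ≠ b → ∑ i, w a i * w b i = 0)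
    (ha : ∀ a, ∑ i, w a i ^ 2 ≠ 0) (f : (Fin d → F) → ℂ)
    (hf : ∀ x y : Fin d → F, (∃ c : Fin 3 → F, y = x + ∑ a, c a • w a) →
      ∑ i, y i ^ 2 = ∑ i, x i ^ 2 → (∃ a, ∑ i, w a i * x i ≠ 0) → (∃ a, ∑ i, w a i * y i ≠ 0) →
      f y = f x) :
    Real.sqrt ((1 / ((Finset.univ.filter (fun ξ : Fin d → F => ∑ i, ξ i ^ 2 = j)).card : ℝ)) *
      ∑ ξ ∈ Finset.univ.filter (fun ξ : Fin d → F => ∑ i, ξ i ^ 2 = j),
        ‖∑ x : Fin d → F, f x * ψ (-(∑ i, x i * ξ i))‖ ^ 2)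
      ≤ 38 * (∑ x : Fin d → F, ‖f x‖ ^ p) ^ (1 / p) := by
  obtain ⟨h1, h2⟩ := admissible hF hadm
  generalize d / 2 = k at h1 h2
  subst h1
  have hp0 : 0 < p := by linarith
  have hψ' : ψ⁻¹ ≠ 1 := inv_ne_one.2 hψ
  have hG := good_dot hF hψ' hj k h2
  have h3 := strong' hp0 f fun A hA => sym_one (w := w) hF hψ' hj hG hw
    (fun a => by simpa only [dotB_apply, sq] using ha a) hp (by
      rw [le_div_iff₀ (by positivity)] at hp2
      push_cast at hp2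
      linarith)
    (fun x y r => by rw [hf x y r.1 (by simpa only [dotB_apply, sq] using r.2.1) r.2.2.1 r.2.2.2]) hA
  have h4 := card_sphere hG (by omega)
  have e1 : (univ.filter fun ξ : Fin (2 * k + 1) → F => dotB F (2 * k + 1) ξ ξ = j)
      = univ.filter fun ξ : Fin (2 * k + 1) → F => ∑ i, ξ i ^ 2 = j := by
    simp only [dotB_apply, sq]
  have e2 : mass ψ⁻¹ j (dotB F (2 * k + 1)) f
      = ∑ ξ ∈ Finset.univ.filter (fun ξ : Fin (2 * k + 1) → F => ∑ i, ξ i ^ 2 = j),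
            ‖∑ x : Fin (2 * k + 1) → F, f x * ψ (-(∑ i, x i * ξ i))‖ ^ 2 := by
    unfold mass ft
    rw [e1]
    simp only [AddChar.inv_apply, dotB_apply, mul_comm]
  rw [e1] at h4
  rw [← e2]
  have hA : 0 ≤ (∑ x, ‖f x‖ ^ p) ^ (1 / p) :=
    Real.rpow_nonneg (sum_nonneg fun _ _ => by positivity) _
  generalize (∑ x, ‖f x‖ ^ p) ^ (1 / p) = A at *
  have hq : (0 : ℝ) < (Fintype.card F : ℝ) ^ (2 * k) := pow_pos card_pos' _
  generalize ((univ.filter fun ξ : Fin (2 * k + 1) → F => ∑ i, ξ i ^ 2 = j).card : ℝ) = S at *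
  have hS : 0 < S := by linarith
  refine Real.sqrt_le_iff.2 ⟨by positivity, ?_⟩
  rw [one_div, inv_mul_le_iff₀ hS]
  refine h3.trans ?_
  calc _ ≤ 692 * (2 * S) * A ^ 2 := by gcongr
    _ ≤ _ := by nlinarith [mul_nonneg hS.le (sq_nonneg A)]

end Pool.Agent.Lib.MP_c8b0a1_an
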